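import Pool.Agent.Q161.ESV.Stm1
import Pool.Agent.Q149.ESB.CNT

/-! Project ESV (helper161), job CNTV: the weighted count. -/

set_option autoImplicit false
set_option linter.unusedSectionVars false

namespace Pool.Agent.Q158.ESV

open NumberField IsDedekindDomain Finset
open Pool.Agent.Q161.ESV
open Pool.Agent.Q149.ESB (exists_ov exists_above prod_mem_w exists_mem_w fin_primes PD mem_PD om_le)
open Pool.Agent.Q124.ESN (cne isSquare_of_qd exists_prime_below sqF_mono)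
open Pool.Agent.Q51.EL (Abv Par)

section

variable {F K : Type} [Field F] [NumberField F] [Field K] [NumberField K] [Algebra F K]
  {V : Type} [AddCommGroup V] [DistribMulAction (K ≃ₐ[F] K) V]

theorem kd_mono {B B' : ℕ} {D : 𝓞 F} {Δ : (V →+ ZMod 2) → K} (h : Kd B D Δ) (hB : B ∣ B') :
    Kd B' D Δ where
  ne := h.ne
  eqv := h.eqv
  sq := sqF_mono h.sq hB
  even := fun l hl hlB => h.even l hl fun h' => hlB (h'.trans hB)
  odd := fun l hl hlB => h.odd l hl fun h' => hlB (h'.trans hB)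

theorem rl_mono {B B' : ℕ} {D D' : 𝓞 F} {Δ Δ' : (V →+ ZMod 2) → K} (h : Rl B D D' Δ Δ')
    (hB : B ∣ B') : Rl B' D D' Δ Δ' :=
  fun l hl hlB => h l hl fun h' => hlB (h'.trans hB)

end

/-- the type of the pairs -/
abbrev UT (F K V : Type) [Field F] [NumberField F] [Field K] [AddCommGroup V] (M B : ℕ) : Type :=
  Σ p : 𝓞 F × ((V →+ ZMod 2) → K), ((v : HeightOneSpectrum (𝓞 F)) → v ∈ PD B p.1 → Fin M)

/-- **CNTV** -/
theorem cntv : S_RPX → S_RELV → S_LOCV → S_MN → S_CNTV := by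
  classical
  intro hRPX hREL hLOC hMN M F K _ _ _ _ _ _ V _ _ _ hM hv2 hsemi hinv Bg 𝒮 hBg hKd hRl
  obtain ⟨ι, _, _, Lf, _, _, em, rp, hRp⟩ := hRPX F K V
  obtain ⟨Bl, hBl, hLOC⟩ := hLOC F K V hv2
  obtain ⟨B, C1, K0, Qm, Qa, hBB, hB0, hC, hQm, hQa, hrel⟩ :=
    hREL M F K V hv2 ι Lf em rp hRp (Bg * Bl) (mul_ne_zero hBg hBl)
  have dg : Bg ∣ Bg * Bl := Dvd.intro _ rfl
  have dgB : Bg ∣ B := dg.trans hBB
  have dl : Bl ∣ B := (Dvd.intro_left _ rfl).trans hBB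
  obtain ⟨T, hT⟩ : ∃ T : F → ((V →+ ZMod 2) → K) → Set (Fin M → V → 𝓞 K),
      T = fun μ a => {z | (∃ p ∈ 𝒮, RV B μ a p.1 p.2 (fun t => ∏ m, z m t)) ∧
        (∀ m, Eqv F (z m) ∧ ∀ i, ∃ β : 𝓞 (Lf i), em i (β : Lf i) = (z m (rp i) : K) ∧ Nice K0 β) ∧
        ∃ ch : HeightOneSpectrum (𝓞 F) → Fin M, ∀ l : ℕ, l.Prime → ¬ l ∣ B →
          ∀ w : HeightOneSpectrum (𝓞 K), Abv w l → ∀ v : HeightOneSpectrum (𝓞 F), Ov w v →
            ∀ m t, z m t ∈ w.asIdeal → ch v = m} := ⟨_, rfl⟩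
  have hcb : ∀ (μ : F) (a : (V →+ ZMod 2) → K), ∃ C : ℝ, 0 < C ∧ (μ ≠ 0 → AdA (F := F) a →
      ∀ X : ℝ, 1 ≤ X →
      {z ∈ T μ a | ∃ N : 𝓞 F, ∏ m, ∏ t, z m t = iO F K N ∧
        ((Ideal.absNorm (Ideal.span {N}) : ℕ) : ℝ) ≤ X}.Finite ∧
      (({z ∈ T μ a | ∃ N : 𝓞 F, ∏ m, ∏ t, z m t = iO F K N ∧
        ((Ideal.absNorm (Ideal.span {N}) : ℕ) : ℝ) ≤ X}.ncard : ℕ) : ℝ) ≤
          C * X * (1 + Real.log X) ^ (M - 1)) := by
    intro μ a
    by_cases hma : μ ≠ 0 ∧ AdA (F := F) a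
    swap
    · exact ⟨1, one_pos, fun h1 h2 => absurd ⟨h1, h2⟩ hma⟩
    obtain ⟨hμ, ha⟩ := hma
    have hmain := hMN M F K V hM hv2 hsemi hinv ι Lf em rp hRp B K0 (T μ a) hB0 ?_ ?_
    · obtain ⟨C, hC0, hCC⟩ := hmain
      exact ⟨C, hC0, fun _ _ => hCC⟩
    · intro z hz
      rw [hT] at hz
      exact hz.2.1
    · intro l hl hlB w φ hw hFb
      have h1 : ∀ z ∈ T μ a, ∀ z' ∈ T μ a, ∀ t : V, (∏ m, z m t) ∈ w.asIdeal →
          (∏ m, z' m t) ∈ w.asIdeal →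
          φ • t = t ∧ (∀ s, s ≠ t → (∏ m, z m s) ∉ w.asIdeal) ∧
          ∀ χ : V →+ ZMod 2, (∀ s, χ (φ • s) = χ s) →
            (∏ s ∈ univ.filter (fun s => χ (s - t) ≠ 0), (∏ m, z m s) * (∏ m, z' m s)) ^
              ((l - 1) / 2) - 1 ∈ w.asIdeal := by
        intro z hz z' hz' t ht ht'
        rw [hT] at hz hz'
        obtain ⟨⟨p, hp, hR⟩, -⟩ := hz
        obtain ⟨⟨p', hp', hR'⟩, -⟩ := hz'
        exact hLOC B dl hB0 μ a hμ ha p.1 p'.1 p.2 p'.2 _ _ hR hR'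
          (rl_mono (hRl p hp p' hp') dgB) l hl hlB w φ hw hFb t ht ht'
      refine ⟨?_, ?_⟩
      · intro z hz m t hm
        have h3 := h1 z hz z hz t (prod_mem_w (f := fun m => z m t) hm)
          (prod_mem_w (f := fun m => z m t) hm)
        refine ⟨h3.1, ?_⟩
        intro m' s hne hms
        by_cases hs : s = t
        · subst hs
          rw [hT] at hz
          obtain ⟨-, -, ch, hch⟩ := hz
          obtain ⟨v, hov⟩ := exists_ov (F := F) hl.ne_zero hw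
          have h4 := hch l hl hlB w hw v hov m s hm
          have h5 := hch l hl hlB w hw v hov m' s hms
          exact hne (by rw [← h4, ← h5])
        · exact h3.2.1 s hs (prod_mem_w (f := fun m => z m s) hms)
      · intro z hz z' hz' t m m' hm hm' χ hχ
        have h3 := (h1 z hz z' hz' t (prod_mem_w (f := fun m => z m t) hm)
          (prod_mem_w (f := fun m => z' m t) hm')).2.2 χ hχ
        have e : ∀ s, ∏ j, z j s * z' j s = (∏ j, z j s) * ∏ j, z' j s := fun s =>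
          Finset.prod_mul_distrib
        simp only [e]
        exact h3
  choose Cb hCb0 hCb using hcb
  obtain ⟨Q, hQ⟩ : ∃ Q : Finset (F × ((V →+ ZMod 2) → K)), Q = Qm ×ˢ Qa := ⟨_, rfl⟩
  have hQ1 : ∀ p ∈ Q, p.1 ≠ 0 ∧ AdA (F := F) p.2 := by
    intro p hp
    rw [hQ, mem_product] at hp
    exact ⟨hQm _ hp.1, hQa _ hp.2⟩
  obtain ⟨e0, he0⟩ : ∃ e0 : ℕ, e0 = {v : HeightOneSpectrum (𝓞 F) | (B : 𝓞 F) ∈ v.asIdeal}.ncard := ⟨_, rfl⟩
  have hS0 : 0 ≤ ∑ p ∈ Q, Cb p.1 p.2 := Finset.sum_nonneg fun p _ => (hCb0 _ _).le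
  have hlC : 0 ≤ Real.log (C1 + 1) := Real.log_nonneg (by linarith)
  refine ⟨(M : ℝ) ^ e0 * ((∑ p ∈ Q, Cb p.1 p.2) * (C1 + 1) * (1 + Real.log (C1 + 1)) ^ (M - 1)) + 1, ?_, ?_⟩
  · positivity
  intro 𝒯 X hX hD1 hD2
  have hlX : 0 ≤ Real.log X := Real.log_nonneg hX
  have hCX : 1 ≤ (C1 + 1) * X := by nlinarith
  obtain ⟨U, hU⟩ : ∃ U : Finset (UT F K V M B),
      U = 𝒯.sigma (fun p => (PD B p.1).pi fun _ => (univ : Finset (Fin M))) := ⟨_, rfl⟩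
  have hUc : (∑ p ∈ 𝒯, M ^ (PD B p.1).card) = U.card := by
    rw [hU, card_sigma]
    refine sum_congr rfl fun D _ => ?_
    rw [Finset.card_pi, Finset.prod_const, Finset.card_univ, Fintype.card_fin]
  have hUmem : ∀ x ∈ U, x.1 ∈ 𝒯 := by
    intro x hx
    rw [hU, mem_sigma] at hx
    exact hx.1
  obtain ⟨m0⟩ : Nonempty (Fin M) := ⟨⟨0, by omega⟩⟩
  obtain ⟨chx, hchx⟩ : ∃ chx : UT F K V M B → HeightOneSpectrum (𝓞 F) → Fin M,
      ∀ (x : UT F K V M B) (v : HeightOneSpectrum (𝓞 F)) (h : v ∈ PD B x.1.1), chx x v = x.2 v h :=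
    ⟨fun x v => if h : v ∈ PD B x.1.1 then x.2 v h else m0, fun x v h => dif_pos h⟩
  have hex : ∀ x ∈ U, ∃ y : (F × ((V →+ ZMod 2) → K)) × (Fin M → V → 𝓞 K),
      y.1 ∈ Q ∧ RV B y.1.1 y.1.2 x.1.1 x.1.2 (fun t => ∏ m, y.2 m t) ∧
      (∀ m, Eqv F (y.2 m) ∧
        ∀ i, ∃ β : 𝓞 (Lf i), em i (β : Lf i) = (y.2 m (rp i) : K) ∧ Nice K0 β) ∧
      (∃ N : 𝓞 F, ∏ m, ∏ t, y.2 m t = iO F K N ∧ ((Ideal.absNorm (Ideal.span {N}) : ℕ) : ℝ) ≤
        C1 * ((Ideal.absNorm (Ideal.span {x.1.1}) : ℕ) : ℝ)) ∧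
      ∀ l : ℕ, l.Prime → ¬ l ∣ B → ∀ w : HeightOneSpectrum (𝓞 K), Abv w l →
        ∀ v : HeightOneSpectrum (𝓞 F), Ov w v → ∀ m t, y.2 m t ∈ w.asIdeal → chx x v = m := by
    intro x hx
    have h1 := hUmem x hx
    obtain ⟨μ, hμ, a, ha, z, k1, k2, k3, k5⟩ :=
      hrel x.1.1 x.1.2 (chx x) (kd_mono (hKd x.1 (hD1 _ h1).1) dg)
    refine ⟨((μ, a), z), ?_, k1, k2, k3,
      fun l hl hlB w hw v hov m t hm => (k5 l hl hlB w hw v hov m t hm).2⟩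
    rw [hQ, mem_product]
    exact ⟨hμ, ha⟩
  choose! Ψ hΨ using hex
  obtain ⟨bx, hbx⟩ : ∃ bx : (F × ((V →+ ZMod 2) → K)) → Finset (Fin M → V → 𝓞 K),
      ∀ p ∈ Q, (∀ z, z ∈ bx p ↔ z ∈ {z ∈ T p.1 p.2 | ∃ N : 𝓞 F, ∏ m, ∏ t, z m t = iO F K N ∧
        ((Ideal.absNorm (Ideal.span {N}) : ℕ) : ℝ) ≤ (C1 + 1) * X}) ∧
        ((bx p).card : ℝ) ≤ Cb p.1 p.2 * ((C1 + 1) * X) * (1 + Real.log ((C1 + 1) * X)) ^ (M - 1) := by
    refine ⟨fun p => if h : {z ∈ T p.1 p.2 | ∃ N : 𝓞 F, ∏ m, ∏ t, z m t = iO F K N ∧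
        ((Ideal.absNorm (Ideal.span {N}) : ℕ) : ℝ) ≤ (C1 + 1) * X}.Finite then h.toFinset else ∅, ?_⟩
    intro p hp
    have hp1 := hQ1 p hp
    have hfin := (hCb p.1 p.2 hp1.1 hp1.2 ((C1 + 1) * X) hCX).1
    simp only [dif_pos hfin]
    refine ⟨fun z => Set.Finite.mem_toFinset _, ?_⟩
    rw [← Set.ncard_eq_toFinset_card _ hfin]
    exact (hCb p.1 p.2 hp1.1 hp1.2 ((C1 + 1) * X) hCX).2
  obtain ⟨W, hW⟩ : ∃ W : Finset (Σ _ : (F × ((V →+ ZMod 2) → K)), (Fin M → V → 𝓞 K)),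
      W = Q.sigma (fun p => bx p) := ⟨_, rfl⟩
  have hWc : (W.card : ℝ) ≤
      (∑ p ∈ Q, Cb p.1 p.2) * ((C1 + 1) * X) * (1 + Real.log ((C1 + 1) * X)) ^ (M - 1) := by
    rw [hW, card_sigma]
    push_cast
    rw [Finset.sum_mul, Finset.sum_mul]
    exact Finset.sum_le_sum fun p hp => (hbx p hp).2
  have hle : U.card ≤ W.card := by
    apply Finset.card_le_card_of_injOn
      (fun x => (⟨(Ψ x).1, (Ψ x).2⟩ : Σ _ : (F × ((V →+ ZMod 2) → K)), (Fin M → V → 𝓞 K)))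
    · intro x hx
      have hx' : x ∈ U := hx
      have h1 := hUmem x hx'
      obtain ⟨k1, k2, k3, ⟨N, k4, k5⟩, k6⟩ := hΨ x hx'
      rw [mem_coe, hW, mem_sigma]
      refine ⟨k1, ?_⟩
      rw [(hbx _ k1).1]
      refine ⟨?_, N, k4, k5.trans ?_⟩
      · rw [hT]
        exact ⟨⟨x.1, (hD1 _ h1).1, k2⟩, k3, chx x, k6⟩
      · have h3 := (hD1 _ h1).2
        nlinarith [Nat.cast_nonneg (α := ℝ) (Ideal.absNorm (Ideal.span {x.1.1}))]
    · intro x hx x' hx' hΨΨ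
      have hxU : x ∈ U := hx
      have hxU' : x' ∈ U := hx'
      have hΨeq : Ψ x = Ψ x' := by
        have h1 := congrArg Sigma.fst hΨΨ
        have h2 := congrArg (fun z : (Σ _ : (F × ((V →+ ZMod 2) → K)), (Fin M → V → 𝓞 K)) => z.2) hΨΨ
        exact Prod.ext h1 h2
      have h1 := hUmem x hxU
      have h1' := hUmem x' hxU'
      obtain ⟨-, hR, -, -, hch⟩ := hΨ x hxU
      obtain ⟨-, hR', -, -, hch'⟩ := hΨ x' hxU'
      rw [← hΨeq] at hR' hch'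
      have hP0 : (∏ t, ((∏ m, (Ψ x).2 m t : 𝓞 K) : K)) ≠ 0 := by
        rw [prod_ne_zero_iff]
        intro t _
        exact cne (hR.rel.ne t)
      have hp : x.1 = x'.1 := by
        refine hD2 x.1 h1 x'.1 h1' ?_ ?_
        · obtain ⟨s, hs, e⟩ := hR.qd
          obtain ⟨s', -, e'⟩ := hR'.qd
          exact isSquare_of_qd (cne hR.rel.kd.sq.1) hs hP0 e e'
        · intro χ
          obtain ⟨q, hq, -, e⟩ := hR.qa χ
          obtain ⟨q', hq', -, e'⟩ := hR'.qa χ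
          have hP : (∏ t ∈ univ.filter (fun t => χ t = 1), ((∏ m, (Ψ x).2 m t : 𝓞 K) : K)) ≠ 0 := by
            rw [prod_ne_zero_iff]
            intro t _
            exact cne (hR.rel.ne t)
          refine ⟨(Ψ x).1.2 χ * q * q' /
            (∏ t ∈ univ.filter (fun t => χ t = 1), ((∏ m, (Ψ x).2 m t : 𝓞 K) : K)), ?_⟩
          rw [div_mul_div_comm, eq_div_iff (mul_ne_zero hP hP)]
          calc _ = (x.1.2 χ * (∏ t ∈ univ.filter (fun t => χ t = 1),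
                  ((∏ m, (Ψ x).2 m t : 𝓞 K) : K))) * (x'.1.2 χ *
                  (∏ t ∈ univ.filter (fun t => χ t = 1), ((∏ m, (Ψ x).2 m t : 𝓞 K) : K))) := by ring
            _ = ((Ψ x).1.2 χ * q ^ 2) * ((Ψ x).1.2 χ * q' ^ 2) := by rw [e, e']
            _ = _ := by ring
      have hchch : ∀ v ∈ PD B x.1.1, chx x v = chx x' v := by
        intro v hv
        obtain ⟨hDv, hBv⟩ := mem_PD hv
        obtain ⟨l, hl, hlB, hvl⟩ := exists_prime_below v hB0 hBv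
        obtain ⟨w, hov⟩ := exists_above (K := K) v
        have hw : Abv w l := by
          have := (hov (l : 𝓞 F)).1 hvl
          rwa [map_natCast] at this
        have hDw : iO F K x.1.1 ∈ w.asIdeal := (hov x.1.1).1 hDv
        obtain ⟨t, ht, -⟩ := hR.rel.kd.odd l hl hlB w hw hDw
        have h3 := (hR.rel.typ l hl hlB w hw t).1 ⟨hDw, ht⟩
        have h4 : (∏ m, (Ψ x).2 m t) ∈ w.asIdeal := by
          rw [← w.valuation_lt_one_iff_mem (K := K)]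
          change w.valuation K ((∏ m, (Ψ x).2 m t : 𝓞 K) : K) < 1
          rw [h3, ← WithZero.exp_zero, WithZero.exp_lt_exp]
          omega
        obtain ⟨m, hm⟩ := exists_mem_w h4
        rw [hch l hl hlB w hw v hov m t hm, hch' l hl hlB w hw v hov m t hm]
      obtain ⟨p, f⟩ := x
      obtain ⟨p', f'⟩ := x'
      simp only at hp
      subst hp
      have hf : f = f' := by
        funext v hv
        have h3 := hchch v hv
        rw [hchx ⟨p, f⟩ v hv, hchx ⟨p, f'⟩ v hv] at h3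
        exact h3
      rw [hf]
  have hM1 : (1 : ℝ) ≤ M := by exact_mod_cast hM
  have h0 : (∑ p ∈ 𝒯, M ^ om p.1) ≤ M ^ e0 * U.card := by
    rw [← hUc, Finset.mul_sum]
    refine Finset.sum_le_sum fun D hD => ?_
    rw [← pow_add]
    refine Nat.pow_le_pow_right hM ?_
    rw [he0]
    exact om_le hB0 (hKd _ (hD1 D hD).1).sq.1
  have h1 : (U.card : ℝ) ≤ W.card := by exact_mod_cast hle
  have h2 := h1.trans hWc
  have h3 : 1 + Real.log ((C1 + 1) * X) ≤ (1 + Real.log (C1 + 1)) * (1 + Real.log X) := by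
    rw [Real.log_mul (by linarith) (by linarith)]
    nlinarith [mul_nonneg hlC hlX]
  have h4 : (1 + Real.log ((C1 + 1) * X)) ^ (M - 1) ≤
      (1 + Real.log (C1 + 1)) ^ (M - 1) * (1 + Real.log X) ^ (M - 1) := by
    rw [← mul_pow]
    exact pow_le_pow_left₀ (by linarith [Real.log_nonneg hCX]) h3 _
  have h5 : (U.card : ℝ) ≤ (∑ p ∈ Q, Cb p.1 p.2) * ((C1 + 1) * X) *
      ((1 + Real.log (C1 + 1)) ^ (M - 1) * (1 + Real.log X) ^ (M - 1)) :=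
    h2.trans (mul_le_mul_of_nonneg_left h4 (by positivity))
  have h6 : ((∑ p ∈ 𝒯, M ^ om p.1 : ℕ) : ℝ) ≤ (M : ℝ) ^ e0 * U.card := by
    exact_mod_cast h0
  calc ((∑ p ∈ 𝒯, M ^ om p.1 : ℕ) : ℝ) ≤ (M : ℝ) ^ e0 * U.card := h6
    _ ≤ (M : ℝ) ^ e0 * ((∑ p ∈ Q, Cb p.1 p.2) * ((C1 + 1) * X) *
      ((1 + Real.log (C1 + 1)) ^ (M - 1) * (1 + Real.log X) ^ (M - 1))) :=
        mul_le_mul_of_nonneg_left h5 (by positivity)
    _ = (M : ℝ) ^ e0 * ((∑ p ∈ Q, Cb p.1 p.2) * (C1 + 1) * (1 + Real.log (C1 + 1)) ^ (M - 1)) * X *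
        (1 + Real.log X) ^ (M - 1) := by ring
    _ ≤ _ := by
        refine mul_le_mul_of_nonneg_right (mul_le_mul_of_nonneg_right ?_ (by linarith)) (by positivity)
        linarith

end Pool.Agent.Q158.ESV
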